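import Pool.Agent.Work.MP_1ef410_gt.Ext

set_option autoImplicit false

namespace Pool.Agent.Results.MP_1ef410_gt.ExtensionAPC

/-- `d` is a proper left-invariant metric on the group `G`: a metric, invariant under left
translations, all of whose balls are finite. -/
structure ProperLeftInvariant {G : Type} [Group G] (d : G → G → ℝ) : Prop where
  eq_zero_iff : ∀ x y, d x y = 0 ↔ x = y
  symm : ∀ x y, d x y = d y x
  triangle : ∀ x y z, d x z ≤ d x y + d y z
  left_invariant : ∀ g x y, d (g * x) (g * y) = d x y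
  finite_ball : ∀ (x : G) (r : ℝ), {y : G | d x y ≤ r}.Finite

/-- The diameters of the members of the family are bounded by one number. -/
def UniformlyBounded {X : Type} (d : X → X → ℝ) (𝒰 : Set (Set X)) : Prop :=
  ∃ B : ℝ, ∀ U ∈ 𝒰, ∀ x ∈ U, ∀ y ∈ U, d x y ≤ B

/-- Distinct members `U`, `V` of the family satisfy `inf {d u v : u ∈ U, v ∈ V} > r`
(the infimum over the empty set being infinite). -/
def RDisjoint {X : Type} (d : X → X → ℝ) (r : ℝ) (𝒰 : Set (Set X)) : Prop :=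
  ∀ U ∈ 𝒰, ∀ V ∈ 𝒰, U ≠ V → ∃ s : ℝ, r < s ∧ ∀ u ∈ U, ∀ v ∈ V, s ≤ d u v

/-- Asymptotic property C of the metric `d` on `X`. -/
def APC {X : Type} (d : X → X → ℝ) : Prop :=
  ∀ R : ℕ → ℝ, (∀ i, 0 < R i) → Monotone R →
    ∃ (n : ℕ) (𝒰 : Fin n → Set (Set X)),
      (∀ i, UniformlyBounded d (𝒰 i)) ∧ (∀ i : Fin n, RDisjoint d (R i) (𝒰 i)) ∧
      ∀ x : X, ∃ i, ∃ U ∈ 𝒰 i, x ∈ U

/-- The group `G` has asymptotic property C: some proper left-invariant metric on it has. -/
def GroupAPC (G : Type) [Group G] : Prop :=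
  ∃ d : G → G → ℝ, ProperLeftInvariant d ∧ APC d

open Pool.Agent.Work.MP_1ef410_gt.Ext

lemma pli_of {G : Type} [Group G] {d : G → G → ℝ} (h : ProperLeftInvariant d) : Pli d :=
  ⟨h.eq_zero_iff, h.symm, h.triangle, h.left_invariant, h.finite_ball 1⟩

lemma of_pli {G : Type} [Group G] {d : G → G → ℝ} (h : Pli d) : ProperLeftInvariant d := by
  refine ⟨h.1, h.2.1, h.2.2.1, h.2.2.2.1, fun x r => ?_⟩
  refine ((h.2.2.2.2 r).image (fun y => x * y)).subset ?_
  intro y hy
  refine ⟨x⁻¹ * y, ?_, by simp⟩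
  change d 1 (x⁻¹ * y) ≤ r
  rw [← one_inv_mul h.2.2.2.1]
  exact hy

lemma weak_of_apc {X : Type} {d : X → X → ℝ} (h : APC d) : Weak d := by
  intro R
  obtain ⟨n, 𝒰, hb, hs, hc⟩ := h (fun i => 1 + ∑ j ∈ Finset.range (i + 1), |R j|)
    (fun i => by
      have : 0 ≤ ∑ j ∈ Finset.range (i + 1), |R j| := Finset.sum_nonneg (fun j _ => abs_nonneg _)
      linarith)
    (fun i j hij => by
      have : ∑ k ∈ Finset.range (i + 1), |R k| ≤ ∑ k ∈ Finset.range (j + 1), |R k| :=
        Finset.sum_le_sum_of_subset_of_nonneg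
          (Finset.range_mono (Nat.succ_le_succ hij)) (fun k _ _ => abs_nonneg _)
      simp only
      linarith)
  choose B hB using hb
  refine ⟨n, fun i => if hi : i < n then 𝒰 ⟨i, hi⟩ else ∅, ∑ i, |B i|, ?_, ?_, ?_⟩
  · intro i hi A hA x hx y hy
    simp only [dif_pos hi] at hA
    have h1 := hB ⟨i, hi⟩ A hA x hx y hy
    have h2 : |B ⟨i, hi⟩| ≤ ∑ i, |B i| :=
      Finset.single_le_sum (f := fun i => |B i|) (fun j _ => abs_nonneg _) (Finset.mem_univ _)
    exact h1.trans ((le_abs_self _).trans h2)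
  · intro i hi A hA A' hA' hne x hx y hy
    simp only [dif_pos hi] at hA hA'
    obtain ⟨s, hs1, hs2⟩ := hs ⟨i, hi⟩ A hA A' hA' hne
    have h1 : |R i| ≤ ∑ j ∈ Finset.range (i + 1), |R j| :=
      Finset.single_le_sum (f := fun j => |R j|) (fun j _ => abs_nonneg _)
        (Finset.mem_range.mpr (Nat.lt_succ_self i))
    have h2 := hs2 x hx y hy
    have h3 := le_abs_self (R i)
    simp only at hs1
    linarith
  · intro x
    obtain ⟨i, A, hA, hx⟩ := hc x
    refine ⟨i, i.2, A, ?_, hx⟩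
    simp only [dif_pos i.2]
    exact hA

lemma apc_of_weak {X : Type} {d : X → X → ℝ} (h : Weak d) : APC d := by
  intro R _ _
  obtain ⟨n, U, B, hB, hs, hc⟩ := h (fun i => R i + 1)
  refine ⟨n, fun i => U i, fun i => ⟨B, hB i i.2⟩, ?_, ?_⟩
  · intro i A hA A' hA' hne
    exact ⟨R i + 1, by linarith, fun u hu v hv => (hs i i.2 A hA A' hA' hne u hu v hv).le⟩
  · intro x
    obtain ⟨i, hi, A, hA, hx⟩ := hc x
    exact ⟨⟨i, hi⟩, A, hA, hx⟩

/-- Asymptotic property C passes to extensions of countable groups. -/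
theorem result : ∀ (G K : Type) [Group G] [Group K] [Countable G] [Countable K] (f : G →* K),
    GroupAPC K → GroupAPC f.ker →
      GroupAPC G ∧ ∀ d : G → G → ℝ, ProperLeftInvariant d → APC d := by
  rintro G K _ _ _ _ f ⟨dK, hdK, hK⟩ ⟨dN, hdN, hN⟩
  have key : ∀ d : G → G → ℝ, ProperLeftInvariant d → APC d := by
    intro d hd
    have hd' := pli_of hd
    exact apc_of_weak (weak_extension f hd' (pli_of hdK) (weak_of_apc hK)
      (transfer (pli_of hdN) (pli_restrict hd' f.ker) (weak_of_apc hN)))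
  obtain ⟨d, hd⟩ := exists_pli G
  exact ⟨⟨d, of_pli hd, key d (of_pli hd)⟩, key⟩

end Pool.Agent.Results.MP_1ef410_gt.ExtensionAPC
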